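import Mathlib.SetTheory.Cardinal.Cofinality.Club
import Mathlib.SetTheory.Cardinal.Regular

/-!
Closure points, agreement of normal functions on a club, and club guessing on points of
cofinality `ω₁`.
-/

universe u v

namespace Pool.Agent.Lib.ClubGuess

open Cardinal Order Set

/-- Definition by recursion along a well order. -/
theorem exists_rec {S : Type u} {β : Type v} [LinearOrder S] [WellFoundedLT S] [Inhabited β]
    (step : S → (S → β) → β)
    (h : ∀ k f g, (∀ j < k, f j = g j) → step k f = step k g) :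
    ∃ M : S → β, ∀ k, M k = step k M := by
  classical
  let F : ∀ k : S, (∀ j, j < k → β) → β :=
    fun k IH => step k (fun j => if h : j < k then IH j h else default)
  refine ⟨WellFounded.fix wellFounded_lt F, fun k => ?_⟩
  rw [WellFounded.fix_eq]
  exact h k _ _ (fun j hj => by simp [hj])

theorem isRegularCardinalOrder_toType {c : Cardinal.{u}} (hc : c.IsRegular) :
    IsRegularCardinalOrder c.ord.ToType :=
  ⟨by rw [Ordinal.cof_toType, hc.cof_ord, Ordinal.type_toType]⟩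

theorem exists_isLUB {α : Type u} [LinearOrder α] [WellFoundedLT α] {s : Set α}
    (hs : BddAbove s) : ∃ b, IsLUB s b := by
  obtain ⟨b, hb, hmin⟩ := wellFounded_lt.has_min (upperBounds s) hs
  exact ⟨b, hb, fun c hc => not_lt.1 (hmin c hc)⟩

section Reg

variable {α : Type u} [LinearOrder α] [WellFoundedLT α] [IsRegularCardinalOrder α]

theorem exists_gt_of_mk_lt {s : Set α} (hs : #s < #α) : ∃ b, ∀ a ∈ s, a < b := by
  rw [← not_isCofinal_iff]
  intro h
  have := cof_le h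
  rw [cof_eq_cardinalMk] at this
  exact this.not_gt hs

theorem mk_Iio_lt' (a : α) : #(Iio a) < #α := mk_Iio_lt a ord_cardinalMk

theorem mk_Iic_lt (hα : ℵ₀ ≤ #α) (a : α) : #(Iic a) < #α := by
  rw [← Iio_insert]
  exact mk_insert_le.trans_lt (add_lt_of_lt hα (mk_Iio_lt' a) (one_lt_aleph0.trans_le hα))

theorem exists_gt' (hα : ℵ₀ ≤ #α) (a : α) : ∃ b, a < b := by
  obtain ⟨b, hb⟩ := exists_gt_of_mk_lt (mk_Iic_lt hα a)
  exact ⟨b, hb a le_rfl⟩

theorem cof_ne_aleph0 (hα : ℵ₀ < #α) : cof α ≠ ℵ₀ := by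
  rw [cof_eq_cardinalMk]
  exact hα.ne'

theorem exists_gt_of_countable (hα : ℵ₀ < #α) {s : Set α} (hs : s.Countable) :
    ∃ b, ∀ a ∈ s, a < b :=
  exists_gt_of_mk_lt (lt_of_le_of_lt (le_aleph0_iff_set_countable.2 hs) hα)

theorem isClub_closure (hα : ℵ₀ < #α) (φ : α → α) : IsClub {b | ∀ i < b, φ i < b} := by
  refine ⟨fun d hd _ _ a ha i hi => ?_, fun a => ?_⟩
  · obtain ⟨y, hy, hiy⟩ := (lt_isLUB_iff ha).1 hi
    exact (hd hy i hiy).trans_le (ha.1 hy)
  · have h1 : ∀ x : α, ∃ y, x < y ∧ ∀ i ≤ x, φ i < y := by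
      intro x
      obtain ⟨y, hy⟩ := exists_gt_of_mk_lt (s := φ '' Iic x)
        (mk_image_le.trans_lt (mk_Iic_lt hα.le x))
      obtain ⟨z, hz⟩ := exists_gt' hα.le x
      exact ⟨max y z, hz.trans_le (le_max_right _ _),
        fun i hi => (hy _ ⟨i, hi, rfl⟩).trans_le (le_max_left _ _)⟩
    choose ψ hψ1 hψ2 using h1
    obtain ⟨c, hc⟩ := exists_gt_of_countable hα (countable_range fun n : ℕ => ψ^[n] a)
    obtain ⟨b, hb⟩ := exists_isLUB (s := range fun n : ℕ => ψ^[n] a) ⟨c, fun x hx => (hc x hx).le⟩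
    refine ⟨b, fun i hi => ?_, hb.1 ⟨0, rfl⟩⟩
    obtain ⟨_, ⟨n, rfl⟩, hn⟩ := (lt_isLUB_iff hb).1 hi
    refine (hψ2 _ i hn.le).trans_le (hb.1 ⟨n + 1, ?_⟩)
    simp [Function.iterate_succ_apply']

theorem exists_club_lim (hα : ℵ₀ < #α) (φ : α → α) :
    ∃ D : Set α, IsClub D ∧ ∀ b ∈ D, IsSuccLimit b ∧ ∀ i < b, φ i < b := by
  have hne : Nonempty α := mk_ne_zero_iff.1 (aleph0_pos.trans hα).ne'
  obtain ⟨a₀⟩ := hne
  choose s hs using exists_gt' hα.le
  have h0 : IsClub (Ioi a₀) := by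
    refine ⟨fun d hd hd' _ a ha => ?_, fun a => ?_⟩
    · obtain ⟨y, hy⟩ := hd'
      exact (hd hy).trans_le (ha.1 hy)
    · exact ⟨s (max a a₀), (le_max_right _ _).trans_lt (hs _), (le_max_left _ _).trans (hs _).le⟩
  refine ⟨({b | ∀ i < b, φ i < b} ∩ {b | ∀ i < b, s i < b}) ∩ Ioi a₀,
    ((isClub_closure hα φ).inter (cof_ne_aleph0 hα) (isClub_closure hα s)).inter
      (cof_ne_aleph0 hα) h0, ?_⟩
  rintro b ⟨⟨h1, h2⟩, h3⟩
  exact ⟨⟨not_isMin_of_lt h3, fun i hi => hi.2 (hs i) (h2 i hi.1)⟩, h1⟩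

/-- Two normal functions with the same supremum agree on a club. -/
theorem exists_club_eq (hα : ℵ₀ < #α) {β : Type v} [LinearOrder β] {f g : α → β} {e : β}
    (hf : IsNormal f) (hg : IsNormal g) (hfe : IsLUB (range f) e) (hge : IsLUB (range g) e) :
    ∃ D : Set α, IsClub D ∧ ∀ b ∈ D, f b = g b := by
  have key : ∀ {f g : α → β}, IsNormal f → IsNormal g → IsLUB (range f) e → IsLUB (range g) e →
      ∃ D : Set α, IsClub D ∧ ∀ b ∈ D, f b ≤ g b := by
    intro f g hf hg hfe hge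
    have h1 : ∀ i, ∃ j, f i < g j := by
      intro i
      obtain ⟨k, hk⟩ := exists_gt' hα.le i
      obtain ⟨_, ⟨j, rfl⟩, hj⟩ :=
        (lt_isLUB_iff hge).1 ((hf.strictMono hk).trans_le (hfe.1 ⟨k, rfl⟩))
      exact ⟨j, hj⟩
    choose φ hφ using h1
    obtain ⟨D, hD, hD'⟩ := exists_club_lim hα φ
    refine ⟨D, hD, fun b hb => ?_⟩
    rw [hf.le_iff_forall_le (hD' b hb).1]
    exact fun i hi => (hφ i).le.trans (hg.monotone ((hD' b hb).2 i hi).le)
  obtain ⟨D₁, h1, h1'⟩ := key hf hg hfe hge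
  obtain ⟨D₂, h2, h2'⟩ := key hg hf hge hfe
  exact ⟨D₁ ∩ D₂, h1.inter (cof_ne_aleph0 hα) h2, fun b hb => (h1' b hb.1).antisymm (h2' b hb.2)⟩

/-- The preimage of a closed set under a normal function converging to a limit point of the set is
cofinal. -/
theorem isCofinal_preimage (hα : ℵ₀ < #α) {β : Type v} [LinearOrder β] {f : α → β} {j : β}
    (hf : IsNormal f) (hj : IsLUB (range f) j) {E : Set β} (hE : IsClub E)
    (hlim : ∀ i < j, ∃ k ∈ E, i < k ∧ k < j) : IsCofinal (f ⁻¹' E) := by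
  have h1 : ∀ t, ∃ t', ∃ k ∈ E, f t < k ∧ k < f t' := by
    intro t
    obtain ⟨t₁, ht₁⟩ := exists_gt' hα.le t
    obtain ⟨k, hk, h1, h2⟩ := hlim (f t) ((hf.strictMono ht₁).trans_le (hj.1 ⟨t₁, rfl⟩))
    obtain ⟨_, ⟨t', rfl⟩, ht'⟩ := (lt_isLUB_iff hj).1 h2
    exact ⟨t', k, hk, h1, ht'⟩
  choose φ k hk h2 h3 using h1
  obtain ⟨D, hD, hD'⟩ := exists_club_lim hα φ
  refine hD.isCofinal.mono fun b hb => ?_
  obtain ⟨hl, hc⟩ := hD' b hb
  obtain ⟨t₀, ht₀⟩ := not_isMin_iff.1 hl.not_isMin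
  refine hE.isLUB_mem (t := k '' Iio b) ?_ ⟨k t₀, t₀, ht₀, rfl⟩ ⟨?_, fun c hc' => ?_⟩
  · rintro _ ⟨t, -, rfl⟩
    exact hk t
  · rintro _ ⟨t, ht, rfl⟩
    exact (h3 t).le.trans (hf.monotone (hc t ht).le)
  · rw [hf.le_iff_forall_le hl]
    exact fun t ht => (h2 t).le.trans (hc' ⟨t, ht, rfl⟩)

end Reg

/-- Club guessing: a family of at most `#S` countable sets such that every club of `S` has a subset
without countable cofinal part all of whose initial segments are in the family. -/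
theorem club_guessing {S : Type} [LinearOrder S] [WellFoundedLT S] [IsRegularCardinalOrder S]
    (hS : ℵ_ 2 < #S) :
    ∃ Q : Set (Set S), #Q ≤ #S ∧ (∀ q ∈ Q, q.Countable) ∧ ∀ D : Set S, IsClub D →
      ∃ C ⊆ D, (∀ s ⊆ C, s.Countable → ∃ i ∈ C, ∀ k ∈ s, k < i) ∧ ∀ i ∈ C, C ∩ Iio i ∈ Q := by
  classical
  have r1 : (ℵ_ 1 : Cardinal.{0}).IsRegular := isRegular_aleph_one
  have h12 : (ℵ_ 1 : Cardinal.{0}) < ℵ_ 2 := by simp
  have h01 : (ℵ₀ : Cardinal.{0}) < ℵ_ 1 := aleph0_lt_aleph_one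
  have hS0 : ℵ₀ < #S := h01.trans (h12.trans hS)
  let T := (ℵ_ 1 : Cardinal.{0}).ord.ToType
  let R := (ℵ_ 2 : Cardinal.{0}).ord.ToType
  have : IsRegularCardinalOrder T := isRegularCardinalOrder_toType r1
  have hT : #T = ℵ_ 1 := mk_ord_toType _
  have hR : #R = ℵ_ 2 := mk_ord_toType _
  have hT0 : ℵ₀ < #T := hT ▸ h01
  let J : Set S := {j | ∃ f : T → S, IsNormal f ∧ IsLUB (range f) j}
  choose f hf hfj using fun j : J => j.2
  -- every club has a limit point in `J`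
  have hJ : ∀ E : Set S, IsClub E → ∃ j : J, ∀ i < j.1, ∃ k ∈ E, i < k ∧ k < j.1 := by
    intro E hE
    have hlt : Ordinal.type (α := T) (· < ·) < Ordinal.type (α := S) (· < ·) := by
      rw [← ord_cardinalMk, ← ord_cardinalMk, ord_lt_ord, hT]
      exact h12.trans hS
    obtain ⟨ι⟩ : Nonempty (T <i S) := Ordinal.type_lt_iff.1 hlt
    have hg := hE.isNormal_enum
    have hι : IsLUB (range ι) ι.top := by
      refine ⟨?_, fun c hc => ?_⟩
      · rintro _ ⟨t, rfl⟩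
        exact (ι.lt_top t).le
      · by_contra! hlt'
        obtain ⟨t, rfl⟩ := ι.mem_range_of_rel_top hlt'
        obtain ⟨t', ht'⟩ := exists_gt' hT0.le t
        exact (hc ⟨t', rfl⟩).not_gt (ι.strictMono ht')
    have hne : Nonempty T := mk_ne_zero_iff.1 (aleph0_pos.trans hT0).ne'
    have hl := hg.map_isLUB hι (range_nonempty _)
    rw [← range_comp] at hl
    refine ⟨⟨_, _, hg.comp ι.isNormal, hl⟩, fun i hi => ?_⟩
    obtain ⟨_, ⟨t, rfl⟩, ht⟩ := (lt_isLUB_iff hl).1 hi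
    exact ⟨_, (enum E hE.isCofinal (ι t)).2, ht, hg.strictMono (ι.lt_top t)⟩
  have main : ∃ E : Set S, IsClub E ∧ ∀ D : Set S, IsClub D →
      ∃ j : J, IsCofinal (f j ⁻¹' E) ∧ ∀ t, f j t ∈ E → f j t ∈ D := by
    by_contra! hcon
    choose! Dof hD1 hD2 using hcon
    obtain ⟨E, hE⟩ := exists_rec (S := R) (β := Set S)
      (fun γ g => ⋂ γ' : Iio γ, Dof (g γ'.1)) (fun γ g g' h => by
        congr 1
        funext γ'
        rw [h γ'.1 γ'.2])
    have hEc : ∀ γ, IsClub (E γ) := by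
      intro γ
      induction γ using WellFoundedLT.induction with
      | ind γ IH =>
      rw [hE γ]
      refine IsClub.iInter (cof_ne_aleph0 hS0) ?_ (fun γ' => hD1 _ (IH γ'.1 γ'.2))
      rw [cof_eq_cardinalMk, lift_id, lift_id]
      exact (mk_set_le _).trans_lt (hR ▸ hS)
    have hEs : IsClub (⋂ γ, E γ) := by
      refine IsClub.iInter (cof_ne_aleph0 hS0) ?_ hEc
      rw [cof_eq_cardinalMk, lift_id, lift_id, hR]
      exact hS
    obtain ⟨j, hj⟩ := hJ _ hEs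
    have hcof := isCofinal_preimage hT0 (hf j) (hfj j) hEs hj
    have h1 : ∀ γ, ∃ t, f j t ∈ E γ ∧ f j t ∉ Dof (E γ) := fun γ =>
      hD2 (E γ) (hEc γ) j (hcof.mono (preimage_mono (iInter_subset _ γ)))
    choose t ht1 ht2 using h1
    have hne : ∀ γ γ', γ < γ' → t γ ≠ t γ' := by
      intro γ γ' h heq
      have := ht1 γ'
      rw [hE γ', mem_iInter] at this
      exact ht2 γ (heq ▸ this ⟨γ, h⟩)
    have hinj : Function.Injective t := by
      intro γ γ' h
      rcases lt_trichotomy γ γ' with h' | h' | h'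
      · exact absurd h (hne _ _ h')
      · exact h'
      · exact absurd h.symm (hne _ _ h')
    have := mk_le_of_injective hinj
    rw [hR, hT] at this
    exact this.not_gt h12
  obtain ⟨E, hE, hguess⟩ := main
  refine ⟨range fun p : J × T => (range (f p.1) ∩ E) ∩ Iio (f p.1 p.2), ?_, ?_, fun D hD => ?_⟩
  · refine mk_range_le.trans ?_
    rw [mk_prod, lift_id, lift_id, hT]
    exact (mul_le_mul' (mk_set_le J) (h12.trans hS).le).trans (mul_eq_self hS0.le).le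
  · rintro _ ⟨⟨j, t⟩, rfl⟩
    have hc : (Iio t).Countable := by
      rw [← le_aleph0_iff_set_countable, ← lt_succ_iff, succ_aleph0]
      exact (mk_Iio_lt' t).trans_eq hT
    refine (hc.image (f j)).mono ?_
    rintro _ ⟨⟨⟨t', rfl⟩, -⟩, h⟩
    exact ⟨t', (hf j).strictMono.lt_iff_lt.1 h, rfl⟩
  · obtain ⟨j, hj1, hj2⟩ := hguess D hD
    refine ⟨range (f j) ∩ E, ?_, fun s hs hsc => ?_, ?_⟩
    · rintro _ ⟨⟨t, rfl⟩, ht⟩
      exact hj2 t ht
    · obtain ⟨b, hb⟩ := exists_gt_of_countable hT0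
        (hsc.preimage_of_injOn (f := f j) (hf j).strictMono.injective.injOn)
      obtain ⟨t, ht, hbt⟩ := hj1 b
      refine ⟨f j t, ⟨⟨t, rfl⟩, ht⟩, fun k hk => ?_⟩
      obtain ⟨t', rfl⟩ := (hs hk).1
      exact (hf j).strictMono ((hb t' hk).trans_le hbt)
    · rintro _ ⟨⟨t, rfl⟩, -⟩
      exact ⟨(j, t), rfl⟩

end Pool.Agent.Lib.ClubGuess
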